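import Mathlib

/-!
# The ordered monoid of the costs

`O` is the ordered additive monoid of the ordinals `ω ^ n₁ + ... + ω ^ nₖ` (natural sum), realised
as finitely supported functions `ℕ → ℕ` with the order which compares the largest index first;
`g n` plays the role of `ω ^ n`.
-/

set_option autoImplicit false

namespace Pool.Agent.Work.MP_d87e04_lc.MX

/-- The ordered monoid of the costs. -/
abbrev O := Lex (ℕᵒᵈ →₀ ℕ)

/-- The generator of degree `n`. -/
noncomputable def g (n : ℕ) : O := toLex (Finsupp.single (OrderDual.toDual n) 1)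

theorem nsmul_g (k a : ℕ) : k • g a = toLex (Finsupp.single (OrderDual.toDual a) k) := by
  induction k with
  | zero =>
    rw [zero_smul, Finsupp.single_zero]
    rfl
  | succ k ih =>
    rw [succ_nsmul, ih, Finsupp.single_add]
    rfl

theorem nsmul_lt (k a : ℕ) {b : ℕ} (h : a < b) : k • g a < g b := by
  rw [nsmul_g, g, Finsupp.Lex.lt_iff]
  refine ⟨OrderDual.toDual b, fun j hj => ?_, ?_⟩
  · have h1 : b < OrderDual.ofDual j := hj
    have h2 : OrderDual.toDual a ≠ j := by
      rintro rfl
      simp at h1
      omega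
    have h3 : OrderDual.toDual b ≠ j := by
      rintro rfl
      simp at h1
    simp [h2, h3]
  · have h2 : OrderDual.toDual a ≠ OrderDual.toDual b := by
      intro hh
      have : a = b := hh
      omega
    simp [h2]

theorem g_mono {a b : ℕ} (h : a ≤ b) : g a ≤ g b := by
  rcases h.eq_or_lt with rfl | h
  · exact le_rfl
  · have := nsmul_lt 1 a h
    rw [one_smul] at this
    exact this.le

theorem O_nonneg (x : O) : 0 ≤ x := by
  by_contra hc
  push Not at hc
  rw [Finsupp.Lex.lt_iff] at hc
  obtain ⟨i, _, hi⟩ := hc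
  simp at hi

theorem g_pos (a : ℕ) : 0 < g a := by
  refine lt_of_le_of_ne (O_nonneg _) fun hh => ?_
  have h2 : (Finsupp.single (OrderDual.toDual a) 1 : ℕᵒᵈ →₀ ℕ) = 0 := hh.symm
  simp at h2

end Pool.Agent.Work.MP_d87e04_lc.MX
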