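import Pool.Agent.Work.MP_d87e04_lc.MX.Ord

/-!
# Zigzags and the termination argument

The abstract calculus of weights. A zigzag is a list of letters `(b, A)`: `(true, A)` is passed
from `src A` to `tgt A`, and `(false, A)` from `tgt A` to `src A`.
-/

set_option autoImplicit false
set_option linter.unusedSectionVars false
set_option linter.unusedSimpArgs false
set_option linter.unusedVariables false

namespace Pool.Agent.Work.MP_d87e04_lc.MX

open Relation

/-- The abstract calculus of weights: every object `t` has a finite set `lv t` of points; a step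
`A` from `src A` to `tgt A` transports weights forward (`dn`) and backward (`up`); `cost A l r` is
the cost of `A` when its source has the left weights `l` and the right weights `r`. -/
structure Cal (T S P : Type*) where
  /-- points -/
  lv : T → Finset P
  /-- source -/
  src : S → T
  /-- target -/
  tgt : S → T
  /-- weights on the source from weights on the target -/
  up : S → (P → ℕ) → P → ℕ
  /-- weights on the target from weights on the source -/
  dn : S → (P → ℕ) → P → ℕ
  /-- cost -/
  cost : S → (P → ℕ) → (P → ℕ) → O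

namespace Cal

variable {T S P : Type*} (K : Cal T S P)

/-- Comparison of weights. -/
def Le (t : T) (w w' : P → ℕ) : Prop := ∀ p ∈ K.lv t, w p ≤ w' p

/-- The general properties of a step. -/
structure Nice (A : S) : Prop where
  up_mono : ∀ w w', K.Le (K.tgt A) w w' → K.Le (K.src A) (K.up A w) (K.up A w')
  dn_mono : ∀ w w', K.Le (K.src A) w w' → K.Le (K.tgt A) (K.dn A w) (K.dn A w')
  cost_mono : ∀ l l' r r', K.Le (K.src A) l l' → K.Le (K.src A) r r' →
    K.cost A l r ≤ K.cost A l' r'
  cost_comm : ∀ l r, K.cost A l r = K.cost A r l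

/-- A square: `tgt A ← src A = src B → tgt B` is closed by `C` from `tgt A` and `D` from `tgt B`. -/
structure Sq (A B C D : S) : Prop where
  src_eq : K.src A = K.src B
  srcC : K.src C = K.tgt A
  srcD : K.src D = K.tgt B
  tgt_eq : K.tgt C = K.tgt D
  ud : ∀ r, K.Le (K.tgt A) (K.up C (K.dn D r)) (K.dn A (K.up B r))
  du : ∀ l, K.Le (K.tgt B) (K.up D (K.dn C l)) (K.dn B (K.up A l))
  cC : ∀ l r, K.cost C l (K.up C (K.dn D r)) ≤ K.cost B (K.up A l) (K.up B r)
  cD : ∀ l r, K.cost D (K.up D (K.dn C l)) r ≤ K.cost A (K.up A l) (K.up B r)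

/-- A triangle: `tgt X ← src X = src Y → tgt Y` is closed by `Z` from `tgt X` to `tgt Y`. -/
structure Tri (X Y Z : S) : Prop where
  src_eq : K.src X = K.src Y
  srcZ : K.src Z = K.tgt X
  tgtZ : K.tgt Z = K.tgt Y
  ul : ∀ r, K.Le (K.tgt X) (K.up Z r) (K.dn X (K.up Y r))
  dl : ∀ l, K.Le (K.tgt Y) (K.dn Z l) (K.dn Y (K.up X l))
  cl : ∀ l r, K.cost Z l (K.up Z r) <
    K.cost X (K.up X l) (K.up Y r) + K.cost Y (K.up X l) (K.up Y r)

/-- `A` is split into `α` followed by the parallel rest `A'`. -/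
structure Split (A α A' : S) : Prop where
  srcα : K.src α = K.src A
  mid : K.src A' = K.tgt α
  tgtA' : K.tgt A' = K.tgt A
  uu : ∀ l, K.Le (K.src A) (K.up α (K.up A' l)) (K.up A l)
  dd : ∀ r, K.Le (K.tgt A) (K.dn A' (K.dn α r)) (K.dn A r)
  cc : ∀ l r, K.cost A' (K.up A' l) (K.dn α r) + K.cost α (K.up α (K.up A' l)) r ≤
    K.cost A (K.up A l) r

/-- The rewrite relation of a set of steps. -/
def Rel (G : Set S) (x y : T) : Prop := ∃ A ∈ G, K.src A = x ∧ K.tgt A = y

/-- Every peak of two steps is closed by a square, or can be split so that a triangle appears. -/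
def Peaks (G : Set S) : Prop := ∀ A ∈ G, ∀ B ∈ G, K.src A = K.src B →
  (∃ C ∈ G, ∃ D ∈ G, K.Sq A B C D) ∨
  ∃ α ∈ G, ∃ A' ∈ G, ∃ β ∈ G, ∃ B' ∈ G, ∃ Z ∈ G,
    K.Split A α A' ∧ K.Split B β B' ∧ (K.Tri α β Z ∨ K.Tri β α Z)

/-- The zigzag `z` of steps of `G` goes from `a` to `b`. -/
def Zig (G : Set S) : T → List (Bool × S) → T → Prop
  | a, [], b => a = b
  | a, (true, A) :: z, b => A ∈ G ∧ K.src A = a ∧ Zig G (K.tgt A) z b
  | a, (false, A) :: z, b => A ∈ G ∧ K.tgt A = a ∧ Zig G (K.src A) z b

/-- The weights at the start of `z` from the weights at its end. -/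
def Rw : List (Bool × S) → (P → ℕ) → (P → ℕ)
  | [], r => r
  | (true, A) :: z, r => K.up A (Rw z r)
  | (false, A) :: z, r => K.dn A (Rw z r)

/-- The weights at the end of `z` from the weights at its start. -/
def Lw : (P → ℕ) → List (Bool × S) → (P → ℕ)
  | l, [] => l
  | l, (true, A) :: z => Lw (K.dn A l) z
  | l, (false, A) :: z => Lw (K.up A l) z

/-- The total cost. -/
noncomputable def Cost : (P → ℕ) → List (Bool × S) → (P → ℕ) → O
  | _, [], _ => 0
  | l, (true, A) :: z, r => K.cost A l (K.up A (K.Rw z r)) + Cost (K.dn A l) z r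
  | l, (false, A) :: z, r => K.cost A (K.up A l) (K.Rw z r) + Cost (K.up A l) z r

variable {K} {G : Set S}

theorem zig_append {z z' : List (Bool × S)} : ∀ {a b : T},
    K.Zig G a (z ++ z') b ↔ ∃ c, K.Zig G a z c ∧ K.Zig G c z' b := by
  induction z with
  | nil =>
    intro a b
    simp [Zig]
  | cons x z ih =>
    intro a b
    obtain ⟨s, A⟩ := x
    cases s
    · simp only [List.cons_append, Zig, ih]
      constructor
      · rintro ⟨h1, h2, c, h3, h4⟩; exact ⟨c, ⟨h1, h2, h3⟩, h4⟩
      · rintro ⟨c, ⟨h1, h2, h3⟩, h4⟩; exact ⟨h1, h2, c, h3, h4⟩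
    · simp only [List.cons_append, Zig, ih]
      constructor
      · rintro ⟨h1, h2, c, h3, h4⟩; exact ⟨c, ⟨h1, h2, h3⟩, h4⟩
      · rintro ⟨c, ⟨h1, h2, h3⟩, h4⟩; exact ⟨h1, h2, c, h3, h4⟩

theorem Rw_append (z z' : List (Bool × S)) (r : P → ℕ) :
    K.Rw (z ++ z') r = K.Rw z (K.Rw z' r) := by
  induction z with
  | nil => rfl
  | cons x z ih =>
    obtain ⟨s, A⟩ := x
    cases s <;> simp only [List.cons_append, Rw, ih]

theorem Lw_append (l : P → ℕ) (z z' : List (Bool × S)) :
    K.Lw l (z ++ z') = K.Lw (K.Lw l z) z' := by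
  induction z generalizing l with
  | nil => rfl
  | cons x z ih =>
    obtain ⟨s, A⟩ := x
    cases s <;> simp only [List.cons_append, Lw, ih]

theorem Cost_append (l : P → ℕ) (z z' : List (Bool × S)) (r : P → ℕ) :
    K.Cost l (z ++ z') r = K.Cost l z (K.Rw z' r) + K.Cost (K.Lw l z) z' r := by
  induction z generalizing l with
  | nil => simp [Cost, Lw]
  | cons x z ih =>
    obtain ⟨s, A⟩ := x
    cases s <;> simp only [List.cons_append, Cost, Lw, ih, Rw_append, add_assoc]

section mono

variable (hG : ∀ A ∈ G, K.Nice A)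

include hG

theorem Rw_mono {z : List (Bool × S)} : ∀ {a b : T}, K.Zig G a z b → ∀ {r r' : P → ℕ},
    K.Le b r r' → K.Le a (K.Rw z r) (K.Rw z r') := by
  induction z with
  | nil =>
    intro a b hz r r' h
    simp only [Zig] at hz
    subst hz
    exact h
  | cons x z ih =>
    intro a b hz r r' h
    obtain ⟨s, A⟩ := x
    cases s
    · obtain ⟨h1, rfl, h3⟩ := hz
      exact (hG A h1).dn_mono _ _ (ih h3 h)
    · obtain ⟨h1, rfl, h3⟩ := hz
      exact (hG A h1).up_mono _ _ (ih h3 h)

theorem Lw_mono {z : List (Bool × S)} : ∀ {a b : T}, K.Zig G a z b → ∀ {l l' : P → ℕ},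
    K.Le a l l' → K.Le b (K.Lw l z) (K.Lw l' z) := by
  induction z with
  | nil =>
    intro a b hz r r' h
    simp only [Zig] at hz
    subst hz
    exact h
  | cons x z ih =>
    intro a b hz r r' h
    obtain ⟨s, A⟩ := x
    cases s
    · obtain ⟨h1, rfl, h3⟩ := hz
      exact ih h3 ((hG A h1).up_mono _ _ h)
    · obtain ⟨h1, rfl, h3⟩ := hz
      exact ih h3 ((hG A h1).dn_mono _ _ h)

theorem Cost_mono {z : List (Bool × S)} : ∀ {a b : T}, K.Zig G a z b →
    ∀ {l l' r r' : P → ℕ}, K.Le a l l' → K.Le b r r' → K.Cost l z r ≤ K.Cost l' z r' := by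
  induction z with
  | nil => intro a b _ l l' r r' _ _; exact le_rfl
  | cons x z ih =>
    intro a b hz l l' r r' h h'
    obtain ⟨s, A⟩ := x
    cases s
    · obtain ⟨h1, rfl, h3⟩ := hz
      exact add_le_add
        ((hG A h1).cost_mono _ _ _ _ ((hG A h1).up_mono _ _ h) (Rw_mono hG h3 h'))
        (ih h3 ((hG A h1).up_mono _ _ h) h')
    · obtain ⟨h1, rfl, h3⟩ := hz
      exact add_le_add
        ((hG A h1).cost_mono _ _ _ _ h ((hG A h1).up_mono _ _ (Rw_mono hG h3 h')))
        (ih h3 ((hG A h1).dn_mono _ _ h) h')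

end mono

/-- `m'` is an improvement of the zigzag `m` from `x` to `y`. -/
structure Imp (K : Cal T S P) (x y : T) (m m' : List (Bool × S)) : Prop where
  R : ∀ r : P → ℕ, K.Le x (K.Rw m' r) (K.Rw m r)
  L : ∀ l : P → ℕ, K.Le y (K.Lw l m') (K.Lw l m)
  C : ∀ l r : P → ℕ, K.Cost l m' r ≤ K.Cost l m r

/-- A strict improvement. -/
structure SImp (K : Cal T S P) (x y : T) (m m' : List (Bool × S)) : Prop extends
    Imp K x y m m' where
  lt : ∀ l r : P → ℕ, K.Cost l m' r < K.Cost l m r

theorem Imp.trans {x y : T} {m m' m'' : List (Bool × S)} (h : Imp K x y m m')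
    (h' : Imp K x y m' m'') : Imp K x y m m'' where
  R := fun r p hp => (h'.R r p hp).trans (h.R r p hp)
  L := fun l p hp => (h'.L l p hp).trans (h.L l p hp)
  C := fun l r => (h'.C l r).trans (h.C l r)

theorem Imp.trans_s {x y : T} {m m' m'' : List (Bool × S)} (h : Imp K x y m m')
    (h' : SImp K x y m' m'') : SImp K x y m m'' where
  toImp := h.trans h'.toImp
  lt := fun l r => (h'.lt l r).trans_le (h.C l r)

section ctx

variable (hG : ∀ A ∈ G, K.Nice A)

include hG

theorem Imp.ctx {a x y b : T} {z1 m m' z2 : List (Bool × S)} (h : Imp K x y m m')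
    (h1 : K.Zig G a z1 x) (hm : K.Zig G x m y) (hm' : K.Zig G x m' y) (h2 : K.Zig G y z2 b) :
    Imp K a b (z1 ++ (m ++ z2)) (z1 ++ (m' ++ z2)) where
  R := by
    intro r
    simp only [Rw_append]
    exact Rw_mono hG h1 (h.R _)
  L := by
    intro l
    simp only [Lw_append]
    exact Lw_mono hG h2 (h.L _)
  C := by
    intro l r
    simp only [Cost_append, Rw_append]
    have e1 := Cost_mono hG h1 (l := l) (l' := l) (fun _ _ => le_rfl) (h.R (K.Rw z2 r))
    have e2 := h.C (K.Lw l z1) (K.Rw z2 r)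
    have e3 := Cost_mono hG h2 (r := r) (r' := r) (h.L (K.Lw l z1)) (fun _ _ => le_rfl)
    exact add_le_add e1 (add_le_add e2 e3)

theorem SImp.ctx {a x y b : T} {z1 m m' z2 : List (Bool × S)} (h : SImp K x y m m')
    (h1 : K.Zig G a z1 x) (hm : K.Zig G x m y) (hm' : K.Zig G x m' y) (h2 : K.Zig G y z2 b) :
    SImp K a b (z1 ++ (m ++ z2)) (z1 ++ (m' ++ z2)) where
  toImp := h.toImp.ctx hG h1 hm hm' h2
  lt := by
    intro l r
    simp only [Cost_append, Rw_append]
    have e1 := Cost_mono hG h1 (l := l) (l' := l) (fun _ _ => le_rfl) (h.R (K.Rw z2 r))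
    have e2 := h.lt (K.Lw l z1) (K.Rw z2 r)
    have e3 := Cost_mono hG h2 (r := r) (r' := r) (h.L (K.Lw l z1)) (fun _ _ => le_rfl)
    exact add_lt_add_of_le_of_lt e1 (add_lt_add_of_lt_of_le e2 e3)

end ctx

/-! ### The local improvements -/

theorem imp_sq {A B C D : S} (h : K.Sq A B C D) :
    Imp K (K.tgt A) (K.tgt B) [(false, A), (true, B)] [(true, C), (false, D)] where
  R := h.ud
  L := h.du
  C := by
    intro l r
    simp only [Cost, Rw, Lw, add_zero]
    have e1 := h.cC l r
    have e2 := h.cD l r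
    calc K.cost C l (K.up C (K.dn D r)) + K.cost D (K.up D (K.dn C l)) r
        ≤ K.cost B (K.up A l) (K.up B r) + K.cost A (K.up A l) (K.up B r) := add_le_add e1 e2
      _ = K.cost A (K.up A l) (K.up B r) + K.cost B (K.up A l) (K.up B r) := add_comm _ _

theorem simp_tri {X Y Z : S} (h : K.Tri X Y Z) :
    SImp K (K.tgt X) (K.tgt Y) [(false, X), (true, Y)] [(true, Z)] where
  R := h.ul
  L := h.dl
  C := by
    intro l r
    simp only [Cost, Rw, Lw, add_zero]
    exact (h.cl l r).le
  lt := by
    intro l r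
    simp only [Cost, Rw, Lw, add_zero]
    exact h.cl l r

theorem simp_tri' {X Y Z : S} (h : K.Tri X Y Z) (hX : K.Nice X) (hY : K.Nice Y)
    (hZ : K.Nice Z) :
    SImp K (K.tgt Y) (K.tgt X) [(false, Y), (true, X)] [(false, Z)] where
  R := h.dl
  L := h.ul
  C := by
    intro l r
    simp only [Cost, Rw, Lw, add_zero]
    have := h.cl r l
    rw [hZ.cost_comm, hX.cost_comm, hY.cost_comm, add_comm] at this
    exact this.le
  lt := by
    intro l r
    simp only [Cost, Rw, Lw, add_zero]
    have := h.cl r l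
    rw [hZ.cost_comm, hX.cost_comm, hY.cost_comm, add_comm] at this
    exact this

theorem imp_split {A α A' : S} (h : K.Split A α A') :
    Imp K (K.tgt A) (K.src A) [(false, A)] [(false, A'), (false, α)] where
  R := h.dd
  L := h.uu
  C := by
    intro l r
    simp only [Cost, Rw, Lw, add_zero]
    exact h.cc l r

theorem imp_split' {A α A' : S} (h : K.Split A α A') (hA : K.Nice A) (hα : K.Nice α)
    (hA' : K.Nice A') :
    Imp K (K.src A) (K.tgt A) [(true, A)] [(true, α), (true, A')] where
  R := h.uu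
  L := h.dd
  C := by
    intro l r
    simp only [Cost, Rw, Lw, add_zero]
    have := h.cc r l
    rw [hA'.cost_comm, hα.cost_comm, hA.cost_comm, add_comm] at this
    exact this

/-! ### Inversions -/

/-- The number of forward letters. -/
def nT : List (Bool × S) → ℕ
  | [] => 0
  | (true, _) :: z => nT z + 1
  | (false, _) :: z => nT z

/-- The number of pairs (backward letter, later forward letter). -/
def inv : List (Bool × S) → ℕ
  | [] => 0
  | (true, _) :: z => inv z
  | (false, _) :: z => inv z + nT z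

theorem nT_swap (z1 z2 : List (Bool × S)) (A B C D : S) :
    nT (z1 ++ ([(true, C), (false, D)] ++ z2)) = nT (z1 ++ ([(false, A), (true, B)] ++ z2)) := by
  induction z1 with
  | nil => simp [nT]
  | cons x z ih =>
    obtain ⟨s, E⟩ := x
    cases s
    · simpa only [List.cons_append, nT] using ih
    · simpa only [List.cons_append, nT, Nat.add_right_cancel_iff] using ih

theorem inv_swap (z1 z2 : List (Bool × S)) (A B C D : S) :
    inv (z1 ++ ([(true, C), (false, D)] ++ z2)) + 1 =
      inv (z1 ++ ([(false, A), (true, B)] ++ z2)) := by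
  induction z1 with
  | nil =>
    simp only [List.nil_append, List.cons_append, inv, nT]
    omega
  | cons x z ih =>
    obtain ⟨s, E⟩ := x
    cases s
    · simp only [List.cons_append, inv] at ih ⊢
      have := nT_swap z z2 A B C D
      simp only [List.cons_append] at this
      omega
    · simp only [List.cons_append, inv] at ih ⊢
      exact ih

/-- A zigzag has a peak or is a valley. -/
theorem peak_or_valley {z : List (Bool × S)} :
    (∃ z1 A B z2, z = z1 ++ ([(false, A), (true, B)] ++ z2)) ∨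
    ∃ u v : List S, z = u.map (fun A => (true, A)) ++ v.map (fun A => (false, A)) := by
  induction z with
  | nil => exact Or.inr ⟨[], [], rfl⟩
  | cons x z ih =>
    obtain ⟨s, A⟩ := x
    rcases ih with ⟨z1, A', B, z2, rfl⟩ | ⟨u, v, rfl⟩
    · exact Or.inl ⟨(s, A) :: z1, A', B, z2, rfl⟩
    · cases s
      · cases u with
        | nil => exact Or.inr ⟨[], A :: v, rfl⟩
        | cons B u => exact Or.inl ⟨[], A, B, _, rfl⟩
      · exact Or.inr ⟨A :: u, v, rfl⟩

theorem zig_fwd {u : List S} : ∀ {a b : T}, K.Zig G a (u.map (fun A => (true, A))) b →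
    ReflTransGen (K.Rel G) a b := by
  induction u with
  | nil =>
    intro a b h
    simp only [List.map_nil, Zig] at h
    subst h
    exact ReflTransGen.refl
  | cons A u ih =>
    intro a b h
    obtain ⟨h1, h2, h3⟩ := h
    exact ReflTransGen.head ⟨A, h1, h2, rfl⟩ (ih h3)

theorem zig_bwd {v : List S} : ∀ {a b : T}, K.Zig G a (v.map (fun A => (false, A))) b →
    ReflTransGen (K.Rel G) b a := by
  induction v with
  | nil =>
    intro a b h
    simp only [List.map_nil, Zig] at h
    subst h
    exact ReflTransGen.refl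
  | cons A v ih =>
    intro a b h
    obtain ⟨h1, h2, h3⟩ := h
    exact ReflTransGen.tail (ih h3) ⟨A, h1, rfl, h2⟩

theorem exists_zig_fwd {a b : T} (h : ReflTransGen (K.Rel G) a b) : ∃ z, K.Zig G a z b := by
  induction h with
  | refl => exact ⟨[], rfl⟩
  | @tail b c _ h2 ih =>
    obtain ⟨z, hz⟩ := ih
    obtain ⟨A, hA, h3, h4⟩ := h2
    exact ⟨z ++ [(true, A)], zig_append.2 ⟨b, hz, hA, h3, h4⟩⟩

theorem exists_zig_bwd {a b : T} (h : ReflTransGen (K.Rel G) a b) : ∃ z, K.Zig G b z a := by
  induction h with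
  | refl => exact ⟨[], rfl⟩
  | @tail b c _ h2 ih =>
    obtain ⟨z, hz⟩ := ih
    obtain ⟨A, hA, h3, h4⟩ := h2
    exact ⟨(false, A) :: z, hA, h4, by rw [h3]; exact hz⟩

/-- Every zigzag can be replaced by a valley. -/
theorem join_of_zig (hG : ∀ A ∈ G, K.Nice A) (hP : K.Peaks G) {a b : T} :
    ∀ (n : O) (m : ℕ) (z : List (Bool × S)), K.Zig G a z b →
      K.Cost (fun _ => 0) z (fun _ => 0) = n → inv z = m →
      ∃ c, ReflTransGen (K.Rel G) a c ∧ ReflTransGen (K.Rel G) b c := by
  intro n
  induction n using WellFoundedLT.induction with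
  | _ n ihn =>
    intro m
    induction m using Nat.strong_induction_on with
    | _ m ihm =>
      intro z hz hn hm
      rcases peak_or_valley (z := z) with ⟨z1, A, B, z2, rfl⟩ | ⟨u, v, rfl⟩
      · obtain ⟨x, h1, h2⟩ := zig_append.1 hz
        obtain ⟨hA, hx, hB, hAB, h3⟩ := h2
        subst hx
        have hsrc : K.src A = K.src B := hAB.symm
        have h3' : K.Zig G (K.tgt B) z2 b := h3
        have hm0 : K.Zig G (K.tgt A) [(false, A), (true, B)] (K.tgt B) :=
          ⟨hA, rfl, hB, hAB, rfl⟩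
        rcases hP A hA B hB hsrc with ⟨C, hC, D, hD, hsq⟩ |
          ⟨α, hα, A', hA', β, hβ, B', hB', Z, hZ, sA, sB, hT⟩
        · have hm1 : K.Zig G (K.tgt A) [(true, C), (false, D)] (K.tgt B) :=
            ⟨hC, hsq.srcC, hD, hsq.tgt_eq.symm, hsq.srcD⟩
          have himp := (imp_sq hsq).ctx hG h1 hm0 hm1 h3'
          have hle := himp.C (fun _ => 0) (fun _ => 0)
          have hinv := inv_swap z1 z2 A B C D
          have hz' : K.Zig G a (z1 ++ ([(true, C), (false, D)] ++ z2)) b :=
            zig_append.2 ⟨_, h1, zig_append.2 ⟨_, hm1, h3'⟩⟩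
          rw [hn] at hle
          rcases hle.lt_or_eq with hlt | heq
          · exact ihn _ hlt _ _ hz' rfl rfl
          · exact ihm _ (by omega) _ hz' heq rfl
        · have hsα : K.src α = K.src β := by rw [sA.srcα, sB.srcα, hsrc]
          -- the zigzag after splitting
          have i1 : Imp K (K.tgt A) (K.tgt B) [(false, A), (true, B)]
              [(false, A'), (false, α), (true, B)] := by
            have := (imp_split sA).ctx hG (G := G) (z1 := []) (a := K.tgt A)
              (z2 := [(true, B)]) (b := K.tgt B) rfl ⟨hA, rfl, rfl⟩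
              ⟨hA', sA.tgtA', hα, sA.mid.symm, sA.srcα⟩ ⟨hB, hAB, rfl⟩
            simpa using this
          have i2 : Imp K (K.tgt A) (K.tgt B) [(false, A'), (false, α), (true, B)]
              [(false, A'), (false, α), (true, β), (true, B')] := by
            have := (imp_split' sB (hG B hB) (hG β hβ) (hG B' hB')).ctx hG (G := G)
              (z1 := [(false, A'), (false, α)]) (a := K.tgt A)
              (z2 := []) (b := K.tgt B)
              ⟨hA', sA.tgtA', hα, sA.mid.symm, by rw [sA.srcα, hsrc]; rfl⟩ ⟨hB, rfl, rfl⟩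
              ⟨hβ, sB.srcα, hB', sB.mid, sB.tgtA'⟩ rfl
            simpa using this
          have key : ∃ m' : List (Bool × S), K.Zig G (K.tgt A) m' (K.tgt B) ∧
              SImp K (K.tgt A) (K.tgt B) [(false, A), (true, B)] m' := by
            rcases hT with hT | hT
            · refine ⟨[(false, A')] ++ ([(true, Z)] ++ [(true, B')]), ?_, ?_⟩
              · exact ⟨hA', sA.tgtA', hZ, by rw [hT.srcZ, sA.mid], hB',
                  by rw [hT.tgtZ, sB.mid], sB.tgtA'⟩
              · refine (i1.trans i2).trans_s ?_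
                have := (simp_tri hT).ctx hG (G := G)
                  (z1 := [(false, A')]) (a := K.tgt A) (z2 := [(true, B')]) (b := K.tgt B)
                  ⟨hA', sA.tgtA', sA.mid⟩ ⟨hα, rfl, hβ, hsα.symm, rfl⟩
                  ⟨hZ, hT.srcZ, hT.tgtZ⟩ ⟨hB', sB.mid, sB.tgtA'⟩
                simpa using this
            · refine ⟨[(false, A')] ++ ([(false, Z)] ++ [(true, B')]), ?_, ?_⟩
              · exact ⟨hA', sA.tgtA', hZ, by rw [hT.tgtZ, sA.mid], hB',
                  by rw [hT.srcZ, sB.mid], sB.tgtA'⟩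
              · refine (i1.trans i2).trans_s ?_
                have := (simp_tri' hT (hG β hβ) (hG α hα) (hG Z hZ)).ctx hG (G := G)
                  (z1 := [(false, A')]) (a := K.tgt A) (z2 := [(true, B')]) (b := K.tgt B)
                  ⟨hA', sA.tgtA', sA.mid⟩ ⟨hα, rfl, hβ, hsα.symm, rfl⟩
                  ⟨hZ, hT.tgtZ, hT.srcZ⟩ ⟨hB', sB.mid, sB.tgtA'⟩
                simpa using this
          obtain ⟨m', hm', hs⟩ := key
          have hlt := (hs.ctx hG h1 hm0 hm' h3').lt (fun _ => 0) (fun _ => 0)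
          rw [hn] at hlt
          exact ihn _ hlt _ _ (zig_append.2 ⟨_, h1, zig_append.2 ⟨_, hm', h3'⟩⟩) rfl rfl
      · obtain ⟨c, h1, h2⟩ := zig_append.1 hz
        exact ⟨c, zig_fwd h1, zig_bwd h2⟩

/-- The abstract theorem. -/
theorem confluent (hG : ∀ A ∈ G, K.Nice A) (hP : K.Peaks G) {a b c : T}
    (hb : ReflTransGen (K.Rel G) a b) (hc : ReflTransGen (K.Rel G) a c) :
    ∃ d, ReflTransGen (K.Rel G) b d ∧ ReflTransGen (K.Rel G) c d := by
  obtain ⟨z1, h1⟩ := exists_zig_bwd hb
  obtain ⟨z2, h2⟩ := exists_zig_fwd hc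
  exact join_of_zig hG hP _ _ (z1 ++ z2) (zig_append.2 ⟨_, h1, h2⟩) rfl rfl

end Cal

end Pool.Agent.Work.MP_d87e04_lc.MX
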